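import Mathlib
import Pool.Agent.H617R3.CutBody

set_option autoImplicit false

namespace Pool.Agent.Results.MP_2a19ed_co.Disconnected

open Matrix MeasureTheory TopologicalSpace Topology
open scoped Pointwise

/-- Euclidean `d`-space. -/
abbrev E (d : ℕ) := EuclideanSpace ℝ (Fin d)

/-- The space of `o`-symmetric convex bodies (with nonempty interior) in `ℝ^d`. It carries the
subspace topology from Mathlib's `ConvexBody`, whose distance is the Hausdorff distance. -/
abbrev Bodies (d : ℕ) :=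
  {C : ConvexBody (E d) //
    (∀ x ∈ (C : Set (E d)), -x ∈ (C : Set (E d))) ∧ (interior (C : Set (E d))).Nonempty}

variable {d : ℕ}

/-- The lattice `L = B ℤ^d` generated by the columns of the matrix `B`. -/
def lattice (B : Matrix (Fin d) (Fin d) ℝ) : Set (E d) :=
  Set.range fun z : Fin d → ℤ => WithLp.toLp 2 (B *ᵥ fun i => (z i : ℝ))

/-- `λ(C, L)`, the minimum of the norm `‖·‖_C` (Mathlib's `gauge`) on `L ∖ {o}`. -/
noncomputable def minimum (C : Bodies d) (B : Matrix (Fin d) (Fin d) ℝ) : ℝ :=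
  sInf (gauge (C.1 : Set (E d)) '' (lattice B \ {0}))

/-- The density `λ^d V(C) / (2^d d(L))` of the lattice packing. -/
noncomputable def density (C : Bodies d) (B : Matrix (Fin d) (Fin d) ℝ) : ℝ :=
  minimum C B ^ d * (volume (C.1 : Set (E d))).toReal / (2 ^ d * |B.det|)

/-- `L = B ℤ^d` is a densest lattice for `C`. -/
def IsDensest (C : Bodies d) (B : Matrix (Fin d) (Fin d) ℝ) : Prop :=
  B.det ≠ 0 ∧ ∀ B' : Matrix (Fin d) (Fin d) ℝ, B'.det ≠ 0 → density C B' ≤ density C B

/-- The union of the bodies `(λ/2) C + l`, `l ∈ L`, of the lattice packing. -/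
def packing (C : Bodies d) (B : Matrix (Fin d) (Fin d) ℝ) : Set (E d) :=
  ⋃ l ∈ lattice B, {x | ∃ c ∈ (C.1 : Set (E d)), x = (minimum C B / 2) • c + l}

open Pool.Agent.Helper876 in
lemma minimum_eq (C : Bodies d) {B : Matrix (Fin d) (Fin d) ℝ} (hB : B.det ≠ 0) :
    minimum C B = minN (fun x => gauge (C.1 : Set (E d)) (WithLp.toLp 2 x)) B := by
  unfold minimum minN
  rw [iInf]
  congr 1
  have hBu : IsUnit B.det := isUnit_iff_ne_zero.2 hB
  ext t
  constructor
  · rintro ⟨_, ⟨⟨z, rfl⟩, hz⟩, rfl⟩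
    refine ⟨⟨z, ?_⟩, rfl⟩
    rintro rfl
    apply hz
    rw [Set.mem_singleton_iff]
    have : (fun i => ((0 : Fin d → ℤ) i : ℝ)) = 0 := by funext i; simp
    simp only [this, Matrix.mulVec_zero]
    rfl
  · rintro ⟨⟨z, hz⟩, rfl⟩
    refine ⟨_, ⟨⟨z, rfl⟩, ?_⟩, rfl⟩
    intro h0
    rw [Set.mem_singleton_iff] at h0
    apply hz
    have h1 : B *ᵥ cast z = 0 := by
      have h3 : B *ᵥ (fun i => (z i : ℝ)) = 0 := by
        simpa using congrArg (WithLp.ofLp (p := 2)) h0
      exact h3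
    have h2 : cast z = 0 := by
      have h3 : B⁻¹ *ᵥ (B *ᵥ cast z) = cast z := by
        rw [Matrix.mulVec_mulVec, Matrix.nonsing_inv_mul _ hBu, Matrix.one_mulVec]
      rw [← h3, h1, Matrix.mulVec_zero]
    funext i
    have := congrFun h2 i
    simpa using this

open Pool.Agent.Helper876 in
lemma density_eq (C : Bodies d) {B : Matrix (Fin d) (Fin d) ℝ} (hB : B.det ≠ 0) :
    density C B = ((volume (C.1 : Set (E d))).toReal / 2 ^ d) *
      (minN (fun x => gauge (C.1 : Set (E d)) (WithLp.toLp 2 x)) B ^ d / |B.det|) := by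
  unfold density
  rw [minimum_eq C hB]
  have : |B.det| ≠ 0 := abs_ne_zero.2 hB
  field_simp

lemma volume_pos (C : Bodies d) : 0 < (volume (C.1 : Set (E d))).toReal := by
  refine ENNReal.toReal_pos ?_ C.1.isCompact.measure_lt_top.ne
  have h := isOpen_interior.measure_pos volume C.2.2
  exact (lt_of_lt_of_le h (measure_mono interior_subset)).ne'

open Pool.Agent.Helper876 in
lemma isDensest_iff (C : Bodies d) (B : Matrix (Fin d) (Fin d) ℝ) :
    IsDensest C B ↔ IsDens (fun x => gauge (C.1 : Set (E d)) (WithLp.toLp 2 x)) B := by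
  have hc : 0 < (volume (C.1 : Set (E d))).toReal / 2 ^ d := div_pos (volume_pos C) (by positivity)
  constructor
  · rintro ⟨h1, h2⟩
    refine ⟨h1, fun B' hB' => ?_⟩
    have := h2 B' hB'
    rw [density_eq C hB', density_eq C h1] at this
    exact le_of_mul_le_mul_left this hc
  · rintro ⟨h1, h2⟩
    refine ⟨h1, fun B' hB' => ?_⟩
    rw [density_eq C hB', density_eq C h1]
    exact mul_le_mul_of_nonneg_left (h2 B' hB') hc.le

lemma norm_ofLp_le (x : E d) : ‖(WithLp.ofLp x : Fin d → ℝ)‖ ≤ ‖x‖ := by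
  rw [pi_norm_le_iff_of_nonneg (norm_nonneg _)]
  intro i
  exact PiLp.norm_apply_le x i

open Pool.Agent.H617R3 in
/-- the cut body in Euclidean space -/
noncomputable def cutBody (d : ℕ) (hd : 1 ≤ d) {ε : ℝ} (hε0 : 0 ≤ ε) (hε : ε ≤ 1 / 4) :
    ConvexBody (E d) where
  carrier := {x | WithLp.ofLp x ∈ PP d ε 1}
  convex' := by
    intro x hx y hy a b ha hb hab
    exact PP_convex ε 1 hx hy ha hb hab
  isCompact' := by
    have h : {x : E d | WithLp.ofLp x ∈ PP d ε 1} =
        (fun x : Fin d → ℝ => (WithLp.toLp 2 x : E d)) '' PP d ε 1 := by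
      ext x
      constructor
      · intro hx; exact ⟨WithLp.ofLp x, hx, rfl⟩
      · rintro ⟨y, hy, rfl⟩; exact hy
    rw [h]
    exact (PP_compact hd hε0 zero_le_one).image (PiLp.continuous_toLp 2 _)
  nonempty' := ⟨0, by
    show WithLp.ofLp (0 : E d) ∈ PP d ε 1
    apply small_mem_PP hε0 hε
    have : WithLp.ofLp (0 : E d) = (0 : Fin d → ℝ) := rfl
    rw [this, norm_zero]; norm_num⟩

open Pool.Agent.Helper876 (cast cast_apply cast_sub cast_add minN) in
/-- A parity argument: if all minimum vectors lie in a sublattice of index two, then the packing is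
not connected. -/
lemma not_connected (C : Bodies d) {B : Matrix (Fin d) (Fin d) ℝ} (hB : B.det ≠ 0)
    (χ : (Fin d → ℤ) →+ ℤ) {z₁ : Fin d → ℤ} (hz₁ : χ z₁ = 1)
    (hχ : ∀ z : Fin d → ℤ, gauge (C.1 : Set (E d)) (WithLp.toLp 2 (B *ᵥ cast z)) ≤ minimum C B →
      Even (χ z)) : ¬ IsConnected (packing C B) := by
  set lam := minimum C B with hlam
  have hlam0 : 0 ≤ lam := by
    apply Real.sInf_nonneg
    rintro _ ⟨x, -, rfl⟩
    exact gauge_nonneg _
  let v : (Fin d → ℤ) → E d := fun z => WithLp.toLp 2 (B *ᵥ cast z)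
  have hv_sub : ∀ z w, v (z - w) = v z - v w := by
    intro z w
    simp only [v]
    rw [cast_sub, Matrix.mulVec_sub, WithLp.toLp_sub]
  -- the piece over a set of integer vectors
  let A : (Fin d → ℤ) → Set (E d) := fun z =>
    {x | ∃ c ∈ (C.1 : Set (E d)), x = (lam / 2) • c + v z}
  have hAclosed : ∀ z, IsClosed (A z) := by
    intro z
    have : A z = (fun c => (lam / 2) • c + v z) '' (C.1 : Set (E d)) := by
      ext x
      constructor
      · rintro ⟨c, hc, rfl⟩; exact ⟨c, hc, rfl⟩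
      · rintro ⟨c, hc, rfl⟩; exact ⟨c, hc, rfl⟩
    rw [this]
    exact (C.1.isCompact.image (by fun_prop)).isClosed
  obtain ⟨R, hR⟩ := C.1.isCompact.isBounded.exists_norm_le
  have hlf : ∀ P : (Fin d → ℤ) → Prop, IsClosed (⋃ z, {x | P z ∧ x ∈ A z}) := by
    intro P
    apply LocallyFinite.isClosed_iUnion
    · intro x
      refine ⟨Metric.ball x 1, Metric.ball_mem_nhds x one_pos, ?_⟩
      refine (Pool.Agent.H617R3.finite_lattice hB (‖x‖ + 1 + lam / 2 * R)).subset ?_
      rintro z ⟨y, ⟨-, c, hc, hyc⟩, hy⟩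
      show ‖B *ᵥ cast z‖ ≤ ‖x‖ + 1 + lam / 2 * R
      have h1 : ‖B *ᵥ cast z‖ ≤ ‖v z‖ := norm_ofLp_le (v z)
      have h2 : v z = y - (lam / 2) • c := by rw [hyc]; abel
      have h3 : ‖v z‖ ≤ ‖y‖ + lam / 2 * ‖c‖ := by
        rw [h2]
        refine (norm_sub_le _ _).trans ?_
        rw [norm_smul, Real.norm_of_nonneg (by positivity)]
      have h4 : ‖y‖ ≤ ‖x‖ + 1 := by
        rw [Metric.mem_ball, dist_eq_norm] at hy
        have : ‖y‖ ≤ ‖y - x‖ + ‖x‖ := by
          calc ‖y‖ = ‖(y - x) + x‖ := by congr 1; abel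
            _ ≤ _ := norm_add_le _ _
        linarith
      have h5 : lam / 2 * ‖c‖ ≤ lam / 2 * R := mul_le_mul_of_nonneg_left (hR c hc) (by positivity)
      linarith
    · intro z
      by_cases hP : P z
      · have : {x | P z ∧ x ∈ A z} = A z := by ext x; simp [hP]
        rw [this]; exact hAclosed z
      · have : {x | P z ∧ x ∈ A z} = ∅ := by ext x; simp [hP]
        rw [this]; exact isClosed_empty
  intro hcon
  have hpre := isPreconnected_closed_iff.1 hcon.isPreconnected
  have hmem : ∀ x, x ∈ packing C B ↔ ∃ z, x ∈ A z := by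
    intro x
    unfold packing lattice
    simp only [Set.mem_iUnion, Set.mem_range, exists_prop]
    constructor
    · rintro ⟨_, ⟨z, rfl⟩, hx⟩
      exact ⟨z, hx⟩
    · rintro ⟨z, hx⟩
      exact ⟨v z, ⟨z, rfl⟩, hx⟩
  obtain ⟨c₀, hc₀⟩ := C.1.nonempty
  have hne := hpre (⋃ z, {x | Even (χ z) ∧ x ∈ A z}) (⋃ z, {x | ¬ Even (χ z) ∧ x ∈ A z})
    (hlf _) (hlf _) (by
      intro x hx
      obtain ⟨z, hz⟩ := (hmem x).1 hx
      by_cases h : Even (χ z)
      · exact Or.inl (Set.mem_iUnion.2 ⟨z, h, hz⟩)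
      · exact Or.inr (Set.mem_iUnion.2 ⟨z, h, hz⟩))
    (by
      refine ⟨(lam / 2) • c₀ + v 0, (hmem _).2 ⟨0, c₀, hc₀, rfl⟩, Set.mem_iUnion.2 ⟨0, ?_, c₀, hc₀, rfl⟩⟩
      simp)
    (by
      refine ⟨(lam / 2) • c₀ + v z₁, (hmem _).2 ⟨z₁, c₀, hc₀, rfl⟩,
        Set.mem_iUnion.2 ⟨z₁, ?_, c₀, hc₀, rfl⟩⟩
      rw [hz₁]; decide)
  obtain ⟨x, -, h1, h2⟩ := hne
  obtain ⟨z, hz, c, hc, hxc⟩ := Set.mem_iUnion.1 h1
  obtain ⟨w, hw, c', hc', hxc'⟩ := Set.mem_iUnion.1 h2
  apply hw
  have hdiff : Even (χ (w - z)) := by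
    apply hχ
    have h3 : v (w - z) = (lam / 2) • (c + -c') := by
      rw [hv_sub, smul_add, smul_neg]
      have : (lam / 2) • c + v z = (lam / 2) • c' + v w := by rw [← hxc, ← hxc']
      have h4 : v w = (lam / 2) • c + v z - (lam / 2) • c' := by rw [this]; abel
      rw [h4]; abel
    show gauge (C.1 : Set (E d)) (v (w - z)) ≤ lam
    rw [h3, gauge_smul_of_nonneg (by positivity), smul_eq_mul]
    have habs : Absorbent ℝ (C.1 : Set (E d)) := by
      obtain ⟨r, hr, hrC⟩ := Pool.Agent.Helper876.exists_ball C.1.convex C.2.1 C.2.2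
      exact absorbent_nhds_zero (Filter.mem_of_superset (Metric.closedBall_mem_nhds _ hr) hrC)
    have h5 := gauge_add_le C.1.convex habs c (-c')
    have h6 := gauge_le_one_of_mem hc
    have h7 := gauge_le_one_of_mem (C.2.1 c' hc')
    nlinarith
  rw [map_sub] at hdiff
  have : χ w = (χ w - χ z) + χ z := by ring
  rw [this]
  exact hdiff.add hz

/-- Negative answer to Q2: for every odd `d ≥ 5` the set of bodies which have a densest lattice, and
for which the packing given by every densest lattice is disconnected, is not meager. -/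
theorem result (d : ℕ) (hd : 5 ≤ d) (hodd : Odd d) :
    ¬ IsMeagre {C : Bodies d | (∃ B, IsDensest C B) ∧
      ∀ B, IsDensest C B → ¬ IsConnected (packing C B)} := by
  classical
  have hd1 : 1 ≤ d := by omega
  obtain ⟨ε, s, hε0, hε1, hs0, hs1, hmain⟩ :=
    Pool.Agent.H617R3.abstract_main d (by omega) hodd
  set C₀ : ConvexBody (E d) := cutBody d hd1 hε0.le hε1 with hC₀
  have hmemC₀ : ∀ x : E d, x ∈ (C₀ : Set (E d)) ↔ WithLp.ofLp x ∈ Pool.Agent.H617R3.PP d ε 1 :=
    fun x => Iff.rfl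
  set r : ℝ := 1 / 4 with hr
  have hr0 : 0 < r := by positivity
  have hball : Metric.closedBall (0 : E d) r ⊆ (C₀ : Set (E d)) := by
    intro x hx
    rw [mem_closedBall_zero_iff] at hx
    rw [hmemC₀]
    apply Pool.Agent.H617R3.small_mem_PP hε0.le hε1
    exact (norm_ofLp_le x).trans hx
  have hsymm₀ : ∀ x ∈ (C₀ : Set (E d)), -x ∈ (C₀ : Set (E d)) := by
    intro x hx
    rw [hmemC₀] at *
    exact Pool.Agent.H617R3.PP_symm hd1 hx
  have hint₀ : (interior (C₀ : Set (E d))).Nonempty :=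
    ⟨0, interior_mono (Metric.ball_subset_closedBall.trans hball) (by
      rw [Metric.isOpen_ball.interior_eq]; exact Metric.mem_ball_self hr0)⟩
  let X₀ : Bodies d := ⟨C₀, hsymm₀, hint₀⟩
  have : BaireSpace (Bodies d) := Pool.Agent.Helper876.baireSymBody (V := E d)
  have hopen := not_isMeagre_of_isOpen (Metric.isOpen_ball (x := X₀) (ε := s * r))
    ⟨X₀, Metric.mem_ball_self (by positivity)⟩
  intro hcon
  apply hopen
  refine IsMeagre.mono ?_ hcon
  intro C hC
  have hdist : dist C₀ C.1 < s * r := by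
    rw [Metric.mem_ball, dist_comm] at hC
    exact hC
  obtain ⟨hin, hout⟩ := Pool.Agent.Helper876.near hball hr0 hs0 (by linarith) hdist
  -- the norm of `C`
  have hnhds : (C.1 : Set (E d)) ∈ 𝓝 (0 : E d) := by
    have h1 : Metric.closedBall (0 : E d) ((1 - s) * r) ⊆ (C.1 : Set (E d)) := by
      intro x hx
      apply hin
      have h1s : 0 < 1 - s := by linarith
      refine ⟨(1 - s)⁻¹ • x, hball ?_, ?_⟩
      · rw [mem_closedBall_zero_iff] at hx ⊢
        rw [norm_smul, norm_inv, Real.norm_of_nonneg h1s.le, inv_mul_le_iff₀ h1s]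
        exact hx
      · simp only
        rw [smul_smul, mul_inv_cancel₀ h1s.ne', one_smul]
    have h1s : 0 < (1 - s) * r := mul_pos (by linarith) hr0
    exact Filter.mem_of_superset (Metric.closedBall_mem_nhds _ h1s) h1
  have hG : Pool.Agent.H617R3.IsG d ε s
      (fun x => gauge (C.1 : Set (E d)) (WithLp.toLp 2 x)) := by
    refine ⟨?_, ?_, ?_, ?_, hε0.le⟩
    · intro c x hc
      show gauge (C.1 : Set (E d)) (WithLp.toLp 2 (c • x)) = c * gauge _ (WithLp.toLp 2 x)
      rw [WithLp.toLp_smul, gauge_smul_of_nonneg hc, smul_eq_mul]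
    · exact (continuous_gauge C.1.convex hnhds).comp (PiLp.continuous_toLp 2 _)
    · intro x hx
      show gauge (C.1 : Set (E d)) (WithLp.toLp 2 x) < 1
      rw [gauge_lt_one_iff_mem_interior C.1.convex hnhds]
      rw [mem_interior]
      refine ⟨{y | WithLp.ofLp y ∈ Pool.Agent.H617R3.UU d ε (1 - s)}, ?_, ?_, hx⟩
      · intro y hy
        apply hin
        have h1s : 0 < 1 - s := by linarith
        refine ⟨(1 - s)⁻¹ • y, ?_, ?_⟩
        · rw [hmemC₀]
          have h2 := Pool.Agent.H617R3.smul_mem_PP (inv_nonneg.2 h1s.le)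
            (Pool.Agent.H617R3.UU_sub_PP _ _ hy)
          rw [inv_mul_cancel₀ h1s.ne'] at h2
          exact h2
        · simp only
          rw [smul_smul, mul_inv_cancel₀ h1s.ne', one_smul]
      · exact (Pool.Agent.H617R3.UU_open ε (1 - s)).preimage (PiLp.continuous_ofLp 2 _)
    · intro x hx
      have h1 : (WithLp.toLp 2 x : E d) ∈ (C.1 : Set (E d)) := by
        have := (gauge_le_one_iff_mem_closure C.1.convex hnhds (x := (WithLp.toLp 2 x : E d))).1 hx
        rwa [C.1.isClosed.closure_eq] at this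
      obtain ⟨y, hy, hyx⟩ := hout h1
      rw [hmemC₀] at hy
      have h2 := Pool.Agent.H617R3.smul_mem_PP (by linarith : (0:ℝ) ≤ 1 + s) hy
      rw [mul_one] at h2
      have h3 : x = (1 + s) • (WithLp.ofLp y : Fin d → ℝ) := by
        have := congrArg (WithLp.ofLp (p := 2)) hyx
        simpa using this.symm
      rw [h3]
      exact h2
  obtain ⟨⟨B₀, hB₀⟩, hall⟩ := hmain _ hG
  refine ⟨⟨B₀, (isDensest_iff C B₀).2 hB₀⟩, ?_⟩
  intro B hB
  have hB' := (isDensest_iff C B).1 hB
  obtain ⟨χ, ⟨z₁, hz₁⟩, hχ⟩ := hall B hB'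
  refine not_connected C hB.1 χ hz₁ ?_
  intro z hz
  apply hχ
  rw [← minimum_eq C hB.1]
  exact hz

end Pool.Agent.Results.MP_2a19ed_co.Disconnected
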